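import Pool.Agent.Lib.MP_1ef7cf_nt_h.Mg.G001
import Pool.Agent.Lib.MP_1ef7cf_nt_h.F08
import Pool.Agent.Lib.MP_1ef7cf_nt_h.Mg.G002
import Pool.Agent.Lib.MP_1ef7cf_nt_h.Mg.G005
import Pool.Agent.Lib.MP_1ef7cf_nt_h.Mg.G004

section

/-!
# The fields `K(√a, cos (2 π / Q))` for general `a`

`a ∈ 𝓞 K` is positive in the first and negative in the second real embedding of the real quadratic field `K`, and every prime which
contains `2 a` contains `Q`. The files `F06`, `F09`, `F10`, `F11`, `S10`, `Z4` of `MP_1ef7cf_nt_h` for this case.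
-/

open NumberField IsDedekindDomain nonZeroDivisors IntermediateField

namespace Pool.Agent.STt

open Pool.Agent.ST Pool.Agent.STh Pool.Agent.STh.F

variable {K : Type*} [Field K] [NumberField K] [Algebra K ℝ] {σ₂ : K →+* ℝ} {a : 𝓞 K}

/-- the data -/
structure FE (σ₂ : K →+* ℝ) (a : 𝓞 K) (Q : ℕ) : Prop where
  deg : Module.finrank ℚ K = 2
  ne : σ₂ ≠ sg1 K
  pos : 0 < algebraMap K ℝ (a : K)
  neg : σ₂ (a : K) < 0
  Q0 : Q ≠ 0
  two : 2 ∣ Q
  mem : ∀ v : HeightOneSpectrum (𝓞 K), a ∈ v.asIdeal → (Q : 𝓞 K) ∈ v.asIdeal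

lemma FE.se_sq {Q : ℕ} (D : FE σ₂ a Q) : se a ^ 2 = algebraMap K ℝ (a : K) :=
  Real.sq_sqrt D.pos.le

lemma FE.se_pos {Q : ℕ} (D : FE σ₂ a Q) : 0 < se a :=
  Real.sqrt_pos.mpr D.pos

lemma FE.notMem {Q : ℕ} (D : FE σ₂ a Q) {v : HeightOneSpectrum (𝓞 K)} (hv : (Q : 𝓞 K) ∉ v.asIdeal) :
    a ∉ v.asIdeal := fun h => hv (D.mem v h)

lemma FE.two_notMem {Q : ℕ} (D : FE σ₂ a Q) {v : HeightOneSpectrum (𝓞 K)} (hv : (Q : 𝓞 K) ∉ v.asIdeal) :
    (2 : 𝓞 K) ∉ v.asIdeal := by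
  intro h
  apply hv
  obtain ⟨c, hc⟩ := D.two
  rw [hc]
  push_cast
  exact v.asIdeal.mul_mem_right _ h

private lemma E1_trace_real {Q : ℕ} (D : FE σ₂ a Q) (x : 𝓞 K) :
    ((Algebra.trace ℤ (𝓞 K) x : ℤ) : ℝ) = algebraMap K ℝ (x : K) + σ₂ (x : K) := by
  classical
  have h1 := trace_eq_sum_embeddings (K := ℚ) (L := K) ℂ (x := (x : K))
  have hne : cemb (sg1 K) ≠ cemb σ₂ := by
    intro h
    apply D.ne
    ext y
    have := DFunLike.congr_fun h y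
    have h3 : ((sg1 K y : ℝ) : ℂ) = (σ₂ y : ℂ) := this
    exact_mod_cast h3.symm
  have huniv : (Finset.univ : Finset (K →ₐ[ℚ] ℂ)) = {cemb (sg1 K), cemb σ₂} := by
    symm
    apply Finset.eq_of_subset_of_card_le (Finset.subset_univ _)
    rw [Finset.card_univ, AlgHom.card, D.deg, Finset.card_pair hne]
  rw [huniv, Finset.sum_pair hne] at h1
  have h3 : ((Algebra.trace ℚ K (x : K) : ℚ) : ℂ) = ((sg1 K x + σ₂ x : ℝ) : ℂ) := by
    rw [Complex.ofReal_add]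
    exact h1
  have h4 : ((Algebra.trace ℚ K (x : K) : ℚ) : ℝ) = sg1 K x + σ₂ x := by exact_mod_cast h3
  rw [← Algebra.coe_trace_int (K := K) x] at h4
  push_cast at h4
  exact h4

/-- See `norm_real` in `MP_1ef7cf_nt_g/F01.lean` (also for the next lemmas). -/
theorem norm_real_e {Q : ℕ} (D : FE σ₂ a Q) (x : 𝓞 K) :
    ((Algebra.norm ℤ x : ℤ) : ℝ) = algebraMap K ℝ (x : K) * σ₂ (x : K) := by
  have h := norm_eq D.deg D.ne (x : K)
  rw [← Algebra.coe_norm_int (K := K) x] at h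
  push_cast at h
  exact h

theorem norm_one_add_e {Q : ℕ} (D : FE σ₂ a Q) (m : ℤ) (x : 𝓞 K) :
    Algebra.norm ℤ (1 + (m : 𝓞 K) * x) =
      1 + m * Algebra.trace ℤ (𝓞 K) x + m ^ 2 * Algebra.norm ℤ x := by
  have ht := E1_trace_real D x
  have hn := norm_real_e D x
  have hn' := norm_real_e D (1 + (m : 𝓞 K) * x)
  apply Int.cast_injective (α := ℝ)
  push_cast
  rw [ht, hn, hn']
  simp only [map_add, map_mul, map_one, map_intCast]
  ring

private lemma E1_aux (H : IntermediateField K ℝ) (a : 𝓞 K) (s : 𝓞 H)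
    (hs2 : s ^ 2 = algebraMap (𝓞 K) (𝓞 H) a)
    (v : HeightOneSpectrum (𝓞 K)) (h2 : (2 : 𝓞 K) ∉ v.asIdeal) (ha : a ∉ v.asIdeal)
    (P : Ideal (𝓞 H)) [P.IsPrime]
    (hP : P.under (𝓞 K) = v.asIdeal) (x : 𝓞 H)
    (hφ : x - s ^ Ideal.absNorm v.asIdeal ∈ P)
    (hx : x = -((chiP a v.asIdeal : ℤ) : 𝓞 H) * s) : False := by
  have hmem : ∀ y : 𝓞 K, y ∈ v.asIdeal → algebraMap (𝓞 K) (𝓞 H) y ∈ P := by
    intro y hy
    rw [← hP] at hy
    exact hy
  have hodd := STg.F.odd_absNorm v h2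
  obtain ⟨j, hj⟩ := hodd
  have hspec := chiP_spec a v h2 ha
  have hj2 : (Ideal.absNorm v.asIdeal - 1) / 2 = j := by omega
  rw [hj2] at hspec
  have h3 := hmem _ hspec
  rw [map_sub, map_pow, map_intCast, ← hs2] at h3
  have h4 : s ^ Ideal.absNorm v.asIdeal - ((chiP a v.asIdeal : ℤ) : 𝓞 H) * s ∈ P := by
    have h5 := P.mul_mem_left s h3
    have h6 : s * ((s ^ 2) ^ j - ((chiP a v.asIdeal : ℤ) : 𝓞 H)) =
        s ^ Ideal.absNorm v.asIdeal - ((chiP a v.asIdeal : ℤ) : 𝓞 H) * s := by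
      rw [hj]; ring
    rwa [h6] at h5
  have h7 := P.add_mem hφ h4
  have h8 : (2 : 𝓞 H) * s ∈ P := by
    have h9 : x - s ^ Ideal.absNorm v.asIdeal + (s ^ Ideal.absNorm v.asIdeal -
        ((chiP a v.asIdeal : ℤ) : 𝓞 H) * s) = -((chiP a v.asIdeal : ℤ) : 𝓞 H) * (2 * s) := by
      rw [hx]; ring
    rw [h9] at h7
    rcases chiP_sq a v.asIdeal with hc | hc
    · rw [hc] at h7
      push_cast at h7
      rw [neg_one_mul] at h7
      exact P.neg_mem_iff.1 h7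
    · rw [hc] at h7
      push_cast at h7
      rwa [neg_neg, one_mul] at h7
  rcases (inferInstance : P.IsPrime).mem_or_mem h8 with h | h
  · apply h2
    rw [← hP]
    change algebraMap (𝓞 K) (𝓞 H) 2 ∈ P
    rwa [map_ofNat]
  · have h10 : s ^ 2 ∈ P := P.pow_mem_of_mem h 2 (by norm_num)
    rw [hs2] at h10
    apply ha
    rw [← hP]
    exact h10

/-- Adapt `MP_1ef7cf_nt_g/F17.lean` (`frob_sqrt`). -/
theorem frob_sqrt_e {Q : ℕ} (D : FE σ₂ a Q) (H : IntermediateField K ℝ) (hH : se a ∈ H)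
    (v : HeightOneSpectrum (𝓞 K)) (h2 : (2 : 𝓞 K) ∉ v.asIdeal) (ha : a ∉ v.asIdeal)
    (P : Ideal (𝓞 H)) [P.IsPrime] (hP : P.under (𝓞 K) = v.asIdeal) (φ : H ≃ₐ[K] H)
    (hφ : ∀ x : 𝓞 H, φ • x - x ^ Ideal.absNorm v.asIdeal ∈ P) :
    act φ (se a) = (chiP a v.asIdeal : ℝ) * se a := by
  have hr2 : se a ^ 2 = algebraMap K ℝ (a : K) := D.se_sq
  have hsq : (⟨se a, hH⟩ : H) ^ 2 = algebraMap K H (a : K) := Subtype.ext hr2
  have hint : IsIntegral ℤ (⟨se a, hH⟩ : H) := by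
    apply IsIntegral.of_pow (n := 2) (by norm_num)
    rw [hsq]
    exact (RingOfIntegers.isIntegral_coe a).algebraMap
  obtain ⟨s, hs⟩ : ∃ s : 𝓞 H, (s : H) = ⟨se a, hH⟩ := ⟨⟨⟨se a, hH⟩, hint⟩, rfl⟩
  have hs2 : s ^ 2 = algebraMap (𝓞 K) (𝓞 H) a := by
    apply RingOfIntegers.coe_injective
    rw [map_pow]
    exact (congrArg (· ^ 2) hs).trans hsq
  rw [act_of_mem φ hH]
  have hφ2 : (φ ⟨se a, hH⟩) ^ 2 = (⟨se a, hH⟩ : H) ^ 2 := by
    rw [← map_pow, hsq, φ.commutes]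
  have hcoe : (((φ • s : 𝓞 H)) : H) = φ ⟨se a, hH⟩ := by
    rw [← hs]; rfl
  have hcm : ∀ c : ℤ, (((-((c : ℤ) : 𝓞 H) * s : 𝓞 H)) : H) = -(c : H) * ⟨se a, hH⟩ := by
    intro c
    rw [← hs]
    simp
  have key := E1_aux H a s hs2 v h2 ha P hP (φ • s) (hφ s)
  rcases sq_eq_sq_iff_eq_or_eq_neg.1 hφ2 with h | h <;> rcases chiP_sq a v.asIdeal with hc | hc
  · rw [h, hc]; simp
  · exfalso
    apply key
    apply RingOfIntegers.ext
    refine Eq.trans ?_ (hcm _).symm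
    rw [hc]
    refine hcoe.trans ?_
    rw [h]
    simp
  · exfalso
    apply key
    apply RingOfIntegers.ext
    refine Eq.trans ?_ (hcm _).symm
    rw [hc]
    refine hcoe.trans ?_
    rw [h]
    simp
  · rw [h, hc]; simp

theorem frob_co_e {Q : ℕ} (D : FE σ₂ a Q) (H : IntermediateField K ℝ) (hH : se a ∈ H)
    (hk : Real.cos (2 * Real.pi / Q) ∈ H) (v : HeightOneSpectrum (𝓞 K))
    (hv : (Q : 𝓞 K) ∉ v.asIdeal) (P : Ideal (𝓞 H)) [P.IsPrime]
    (hP : P.under (𝓞 K) = v.asIdeal) (φ : H ≃ₐ[K] H)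
    (hφ : ∀ x : 𝓞 H, φ • x - x ^ Ideal.absNorm v.asIdeal ∈ P) :
    Co a Q φ (chiP a v.asIdeal) (Ideal.absNorm v.asIdeal) :=
  ⟨frob_sqrt_e D H hH v (D.two_notMem hv) (D.notMem hv) P hP φ hφ, frob_cos H D.Q0 hk v hv P hP φ hφ⟩

end Pool.Agent.STt
end

section

/-!
# Artin symbols
-/

open NumberField IsDedekindDomain nonZeroDivisors IntermediateField

namespace Pool.Agent.STt

open Pool.Agent.ST Pool.Agent.STh Pool.Agent.STh.F

variable {K : Type*} [Field K] [NumberField K] [Algebra K ℝ] {σ₂ : K →+* ℝ} {a : 𝓞 K}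

/-- for a prime ideal: `exists_ovr`, `exists_isFrob`, `frob_co`; see `MP_1ef7cf_nt_g/F23.lean` -/
theorem exists_sig_prime_e {Q : ℕ} (D : FE σ₂ a Q)
    (v : HeightOneSpectrum (𝓞 K)) (hv : (Q : 𝓞 K) ∉ v.asIdeal) :
    ∃ σ : Lf a Q ≃ₐ[K] Lf a Q, Co a Q σ (chiP a v.asIdeal) (Ideal.absNorm v.asIdeal) := by
  haveI := numberField_of_fd (Lf a Q)
  obtain ⟨P, hP⟩ := exists_ovr (K := K) (L := Lf a Q) v
  obtain ⟨φ, hφ⟩ := exists_isFrob (K := K) P
  haveI := P.isPrime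
  have hPv : P.asIdeal.under (𝓞 K) = v.asIdeal := by rw [← hP]; rfl
  have hφ' : ∀ x : 𝓞 (Lf a Q), φ • x - x ^ Ideal.absNorm v.asIdeal ∈ P.asIdeal := by
    intro x
    have := hφ x
    rw [hP] at this
    exact this
  exact ⟨φ, frob_co_e D (Lf a Q) (se_mem a Q) (cos_mem a Q) v hv P.asIdeal hPv φ hφ'⟩

/-- `STg.F.ideal_induction` with `m = span {Q}`; `Co.mul`; see `MP_1ef7cf_nt_g/F23.lean` -/
theorem exists_sig_e {Q : ℕ} (D : FE σ₂ a Q) (I : Ideal (𝓞 K))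
    (hI : I ≠ ⊥) (hIQ : IsCoprime I (Ideal.span {(Q : 𝓞 K)})) :
    ∃ σ : Lf a Q ≃ₐ[K] Lf a Q, Co a Q σ (chiI a I) (Ideal.absNorm I) := by
  have hmain := STg.F.ideal_induction (m := Ideal.span {(Q : 𝓞 K)})
    (p := fun I => ∃ σ : Lf a Q ≃ₐ[K] Lf a Q, Co a Q σ (chiI a I) (Ideal.absNorm I)) ?_ ?_ I hI hIQ
  · exact hmain
  · refine ⟨1, ?_⟩
    have h1 : Ideal.absNorm (⊤ : Ideal (𝓞 K)) = 1 := by rw [← Ideal.one_eq_top, map_one]
    rw [chiI_top, h1]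
    exact Co.one (se_mem a Q) (cos_mem a Q)
  · rintro v I hv hI hIc ⟨σ, hσ⟩
    have hvQ : (Q : 𝓞 K) ∉ v.asIdeal := by
      intro h
      exact hv (Ideal.dvd_span_singleton.2 h)
    obtain ⟨φ, hφ⟩ := exists_sig_prime_e D v hvQ
    refine ⟨φ * σ, ?_⟩
    rw [chiI_mul a v.ne_bot hI, chiI_prime, map_mul]
    exact Co.mul (se_mem a Q) (cos_mem a Q) hφ hσ

/-- **Primes.** Let `N = H ⊔ Lf a Q`, finite and Galois over `K` (`isAbelianGalois_sup`, `IsRCF.abelian`). Let `P` be a prime of `N` above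
`v` (`exists_ovr`), `φ` a Frobenius element at `P` (`exists_isFrob`). Its restriction to `H` is a Frobenius element at the prime below
(`isFrob_res`), so it is `Art (cls J)` (`IsRCF.frobP`, `isFrob_unique`, as in the proof of `IsRCF.le`). Its restriction to
`Lf a Q` has the coordinates of `v` (`frob_co` for `N`, `Co.res`), so it is `τ` (`Co.ext`). -/
theorem comp_prime_e {Q : ℕ} (D : FE σ₂ a Q) {m : Ideal (𝓞 K)}
    (hm : Above Q m) {H : IntermediateField K ℝ} {Art : RayClassGroup σ₂ m ≃* (H ≃ₐ[K] H)}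
    (hA : IsRayClassField σ₂ m H Art) {L : IntermediateField K ℝ} (hLH : L ≤ H)
    (hLF : L ≤ Lf a Q) (v : HeightOneSpectrum (𝓞 K)) (J : primeTo (K := K) m)
    (hJ : ((J : (FI K)ˣ) : FI K) = v.asIdeal) (τ : Lf a Q ≃ₐ[K] Lf a Q)
    (hτ : Co a Q τ (chiP a v.asIdeal) (Ideal.absNorm v.asIdeal)) {x : ℝ} (hx : x ∈ L) :
    act (Art (cls σ₂ m J)) x = act τ x := by
  have hfH := hA.finite
  have hgH := hA.galois
  have habH : IsAbelianGalois K H := hA.isRCF.abelian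
  have habN : IsAbelianGalois K (H ⊔ Lf a Q : IntermediateField K ℝ) := isAbelianGalois_sup
  have hfN : FiniteDimensional K (H ⊔ Lf a Q : IntermediateField K ℝ) := inferInstance
  have hN := numberField_of_fd (H ⊔ Lf a Q)
  have hNH := numberField_of_fd H
  have hHN : H ≤ H ⊔ Lf a Q := le_sup_left
  have hFN : Lf a Q ≤ H ⊔ Lf a Q := le_sup_right
  have hv : ¬ v.asIdeal ∣ m := coprime_prime_iff.1 (coprime_of_mem_primeTo hJ J.2)
  have hvQ : (Q : 𝓞 K) ∉ v.asIdeal := fun h => hv (hm v h)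
  obtain ⟨P, hP⟩ := exists_ovr (K := K) (L := (H ⊔ Lf a Q : IntermediateField K ℝ)) v
  obtain ⟨φ, hφ⟩ := exists_isFrob (K := K) P
  have := P.isPrime
  have hPv : P.asIdeal.under (𝓞 K) = v.asIdeal := by rw [← hP]; rfl
  have hφ' : ∀ x : 𝓞 (H ⊔ Lf a Q : IntermediateField K ℝ),
      φ • x - x ^ Ideal.absNorm v.asIdeal ∈ P.asIdeal := by
    intro x
    have := hφ x
    rw [hP] at this
    exact this
  obtain ⟨P₁, hP₁, -, hP₁'⟩ := isFrob_res hHN P
  have f1 := hA.isRCF.frobP P₁ (by simp) J (by rw [hJ, hP₁, hP])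
  have := f1.1
  have g1 : res hHN φ = Art (cls σ₂ m J) := isFrob_unique (hP₁' φ hφ) f1.2
  have g2 : Co a Q φ (chiP a v.asIdeal) (Ideal.absNorm v.asIdeal) :=
    frob_co_e D (H ⊔ Lf a Q) (hFN (se_mem a Q)) (hFN (cos_mem a Q)) v hvQ P.asIdeal hPv φ hφ'
  have g3 : res hFN φ = τ := Co.ext (Co.res hFN g2) hτ
  rw [← g1, ← g3, act_res hHN φ (hLH hx), act_res hFN φ (hLF hx)]

/-- **Ideals.** `STg.F.ideal_induction` as in `art_coords` (`MP_1ef7cf_nt_g/F20.lean`), `exists_sig` for the factors. `L` is normal over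
`K` (as a subfield of an abelian extension), so the automorphisms map `L` to `L`. -/
theorem comp_e {Q : ℕ} (D : FE σ₂ a Q) {m : Ideal (𝓞 K)}
    (hm : Above Q m) {H : IntermediateField K ℝ} {Art : RayClassGroup σ₂ m ≃* (H ≃ₐ[K] H)}
    (hA : IsRayClassField σ₂ m H Art) {L : IntermediateField K ℝ} (hLH : L ≤ H)
    (hLF : L ≤ Lf a Q) (I : Ideal (𝓞 K)) (hI : I ≠ ⊥) (J : primeTo (K := K) m)
    (hJ : ((J : (FI K)ˣ) : FI K) = (I : FI K)) (τ : Lf a Q ≃ₐ[K] Lf a Q)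
    (hτ : Co a Q τ (chiI a I) (Ideal.absNorm I)) {x : ℝ} (hx : x ∈ L) :
    act (Art (cls σ₂ m J)) x = act τ x := by
  have habL : IsAbelianGalois K L := isAbelianGalois_of_le hLF
  have hmain := STg.F.ideal_induction (m := m)
    (p := fun I => ∀ J : primeTo (K := K) m, ((J : (FI K)ˣ) : FI K) = (I : FI K) →
      ∀ τ : Lf a Q ≃ₐ[K] Lf a Q, Co a Q τ (chiI a I) (Ideal.absNorm I) →
      ∀ x ∈ L, act (Art (cls σ₂ m J)) x = act τ x) ?_ ?_ I hI
      (coprime_of_mem_primeTo hJ J.2) J hJ τ hτ x hx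
  · exact hmain
  · intro J hJ τ hτ x hx
    have h1 : J = 1 := by
      apply Subtype.ext
      apply Units.ext
      rw [hJ]
      simp
    have h2 : τ = 1 := by
      apply Co.ext hτ
      have h3 := Co.one (a := a) (Q := Q) (H := Lf a Q) (se_mem a Q) (cos_mem a Q)
      rw [chiI_top, ← Ideal.one_eq_top, map_one]
      exact h3
    rw [h1, h2, map_one, map_one, act_one_left (hLH hx), act_one_left (hLF hx)]
  · intro v I hv hI hIc ih J hJ τ hτ x hx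
    set Jv := prJ (K := K) m v hv with hJv
    have hJ' : (((J * Jv⁻¹ : primeTo (K := K) m) : (FI K)ˣ) : FI K) = (I : FI K) := by
      rw [Subgroup.coe_mul, Subgroup.coe_inv, Units.val_mul, hJ, FractionalIdeal.coeIdeal_mul,
        mul_comm (v.asIdeal : FI K), mul_assoc]
      have : (v.asIdeal : FI K) * (((Jv : (FI K)ˣ)⁻¹ : (FI K)ˣ) : FI K) = 1 := by
        have h3 : ((Jv : (FI K)ˣ) : FI K) = v.asIdeal := coe_prJ m v hv
        rw [← h3, ← Units.val_mul, mul_inv_cancel, Units.val_one]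
      rw [this, mul_one]
    have hvQ : (Q : 𝓞 K) ∉ v.asIdeal := fun h => hv (hm v h)
    obtain ⟨σv, hσv⟩ := exists_sig_prime_e D v hvQ
    obtain ⟨σI, hσI⟩ := exists_sig_e D I hI (F10_coprime D.Q0 hm hIc)
    have hτ' : τ = σv * σI := by
      apply Co.ext hτ
      have h3 := Co.mul (se_mem a Q) (cos_mem a Q) hσv hσI
      rw [chiI_mul a v.ne_bot hI, chiI_prime, map_mul]
      exact h3
    have hcls : cls σ₂ m J = cls σ₂ m Jv * cls σ₂ m (J * Jv⁻¹) := by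
      rw [← map_mul]
      congr 1
      rw [mul_comm J, ← mul_assoc, mul_inv_cancel, one_mul]
    have hxL : act σI x ∈ L := by
      rw [← act_res hLF σI hx]
      exact act_mem _ hx
    rw [hcls, map_mul, hτ', act_comp _ _ (hLH hx), act_comp _ _ (hLF hx),
      ih (J * Jv⁻¹) hJ' σI hσI x hx]
    exact comp_prime_e D hm hA hLH hLF v Jv (coe_prJ m v hv) σv hσv hxL

/-- **The conjugation.** `STb.exists_isConj` gives `κ` with `g (κ x) = conj (g x)` for the embeddings `g` of `Lf a Q` over `σ₂`.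
`g (se a) ^ 2 = σ₂ a < 0` (`FD.sig`), so `g (se a)` is purely imaginary and `κ (se a) = -se a`. `g (cos (2 π / Q))` is real
(`2 cos (2 π / Q)` is a root of `D_Q - 2`, see `exists_act_cos`; or: `g` composed with the inclusion of `ℚ(cos (2 π / Q))`). -/
theorem exists_kap_e {Q : ℕ} (D : FE σ₂ a Q) :
    ∃ κ : Lf a Q ≃ₐ[K] Lf a Q, Co a Q κ (-1) 1 := by
  obtain ⟨κ, hκ⟩ := STb.exists_isConj (L := Lf a Q) σ₂
  obtain ⟨g, hg⟩ := exists_over (H := Lf a Q) σ₂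
  have hs := se_mem a Q
  have hc := cos_mem a Q
  refine ⟨κ, ?_, ?_⟩
  · apply emb_inj g (act_mem κ hs) (mul_mem (intCast_mem _ _) hs)
    rw [hκ g hg _ hs]
    have h1 : emb g (se a) ^ 2 = ((σ₂ (a : K) : ℝ) : ℂ) := by
      rw [sq, ← emb_mul g hs hs, ← sq, D.se_sq, emb_of_mem g ((Lf a Q).algebraMap_mem _)]
      exact hg (a : K)
    have hd : σ₂ (a : K) < 0 := D.neg
    have h2 : (starRingEnd ℂ) (emb g (se a)) ^ 2 = emb g (se a) ^ 2 := by
      rw [← map_pow, h1, Complex.conj_ofReal]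
    have h3 : emb g (((-1 : ℤ) : ℝ) * se a) = - emb g (se a) := by
      have h4 : ((-1 : ℤ) : ℝ) * se a = -1 * se a := by push_cast; ring
      have h5 : (-1 : ℝ) ∈ Lf a Q := neg_mem (one_mem _)
      rw [h4, emb_mul g h5 hs, emb_of_mem g h5]
      have h6 : (⟨-1, h5⟩ : Lf a Q) = -1 := rfl
      rw [h6, map_neg, map_one]
      ring
    rw [h3]
    rcases sq_eq_sq_iff_eq_or_eq_neg.1 h2 with h4 | h4
    · exfalso
      obtain ⟨r, hr⟩ := Complex.conj_eq_iff_real.1 h4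
      rw [hr, ← Complex.ofReal_pow] at h1
      have h5 : r ^ 2 = σ₂ (a : K) := Complex.ofReal_injective h1
      nlinarith [sq_nonneg r]
    · exact h4
  · rw [Nat.cast_one, mul_one]
    apply emb_inj g (act_mem κ hc) hc
    rw [hκ g hg _ hc, F11_cos_real D.Q0 hc g]

/-- **The class `c`.** Let `z ∈ 𝓞 K` with `z = 1` modulo `m Q` and `σ₂ z < 0` (`exists_neg` for the modulus `m * span {Q}`). Its class is
`c`: the class of `IsC` does not depend on the choice of the element (the quotient of two of them is `1` modulo `m` and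
positive at `σ₂`, `cls_eq_iff`). `N(z) = 1` modulo `Q` (`norm_one_add`), so `absNorm (z) = ± 1` modulo `Q`, and the automorphism `τ` with
the coordinates of the ideal `(z)` (`exists_sig`) has coordinates `± 1`, `1` (`chiI_sq`, `cos_mod_iff`); so it is `1` or `κ`. `comp`. -/
theorem art_c_e {Q : ℕ} (D : FE σ₂ a Q) {m : Ideal (𝓞 K)}
    (hm0 : m ≠ ⊥) (hm : Above Q m) {H : IntermediateField K ℝ}
    {Art : RayClassGroup σ₂ m ≃* (H ≃ₐ[K] H)} (hA : IsRayClassField σ₂ m H Art)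
    {L : IntermediateField K ℝ} (hLH : L ≤ H) (hLF : L ≤ Lf a Q) {κ : Lf a Q ≃ₐ[K] Lf a Q}
    (hκ : Co a Q κ (-1) 1) {c : RayClassGroup σ₂ m} (hc : IsC σ₂ m c) :
    (∀ x ∈ L, act (Art c) x = x) ∨ (∀ x ∈ L, act (Art c) x = act κ x) := by
  obtain ⟨z, C, hz1, hz2, hC, rfl⟩ := hc
  obtain ⟨t, ht⟩ : ∃ t : 𝓞 K, t = (Q : 𝓞 K) := ⟨_, rfl⟩
  have ht0 : t ≠ 0 := by
    rw [ht]
    exact Nat.cast_ne_zero.2 D.Q0
  have hn : m * Ideal.span {t} ≠ ⊥ := by
    rw [← Ideal.zero_eq_bot] at hm0 ⊢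
    refine mul_ne_zero hm0 ?_
    rw [Ideal.zero_eq_bot, Ne, Ideal.span_singleton_eq_bot]
    exact ht0
  obtain ⟨z', h1, h2⟩ := exists_neg σ₂ hn 1
  have hz'm : z' - 1 ∈ m := (Ideal.mul_le_left : m * Ideal.span {t} ≤ m) h1
  have hz't : z' - 1 ∈ Ideal.span {t} :=
    (Ideal.mul_le_right : m * Ideal.span {t} ≤ Ideal.span {t}) h1
  obtain ⟨x, hx⟩ := Ideal.mem_span_singleton.1 hz't
  have hz0 : (z : K) ≠ 0 := by
    intro h
    rw [h, map_zero] at hz2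
    exact lt_irrefl _ hz2
  have hz0' : (z' : K) ≠ 0 := by
    intro h
    rw [h, map_zero] at h2
    exact lt_irrefl _ h2
  obtain ⟨C', hC'⟩ : ∃ C' : primeTo (K := K) m, (C' : (FI K)ˣ) = uP (z' : K) hz0' :=
    ⟨⟨uP (z' : K) hz0', coe_mem_primeTo (I := Ideal.span {z'})
      (by rw [coe_uP, coe_span_singleton]) (coprime_span_of_sub_one_mem hz'm)⟩, rfl⟩
  have hC'2 : ((C' : (FI K)ˣ) : FI K) = ((Ideal.span {z'} : Ideal (𝓞 K)) : FI K) := by
    rw [hC', coe_uP, coe_span_singleton]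
  have hcls : cls σ₂ m C = cls σ₂ m C' := by
    rw [cls_eq_iff]
    refine ⟨(z : K)⁻¹ * z', (oneMod_of_sub_one_mem hz1).inv.mul (oneMod_of_sub_one_mem hz'm), ?_, ?_⟩
    · rw [map_mul, map_inv₀]
      exact mul_pos_of_neg_of_neg (inv_lt_zero.2 hz2) h2
    · rw [Units.val_mul, Units.val_inv_eq_inv_val, hC, hC'2, coe_span_singleton,
        coe_span_singleton, FractionalIdeal.spanSingleton_inv,
        FractionalIdeal.spanSingleton_mul_spanSingleton]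
  rw [hcls]
  have hne : Ideal.span {z'} ≠ (⊥ : Ideal (𝓞 K)) := by
    rw [Ne, Ideal.span_singleton_eq_bot]
    rintro rfl
    exact hz0' (by simp)
  have hcop : IsCoprime (Ideal.span {z'}) (Ideal.span {(Q : 𝓞 K)}) := by
    rw [← ht]
    exact coprime_span_of_sub_one_mem hz't
  obtain ⟨τ, hτ⟩ := exists_sig_e D (Ideal.span {z'}) hne hcop
  have hcomp : ∀ x ∈ L, act (Art (cls σ₂ m C')) x = act τ x := fun x hx =>
    comp_e D hm hA hLH hLF (Ideal.span {z'}) hne C' hC'2 τ hτ hx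
  have hcos : Real.cos (2 * Real.pi * (Ideal.absNorm (Ideal.span {z'}) : ℕ) / Q) =
      Real.cos (2 * Real.pi / Q) := by
    have hz'eq : z' = 1 + ((Q : ℤ) : 𝓞 K) * x := by
      push_cast
      linear_combination hx + x * ht
    have hnorm := norm_one_add_e D (Q : ℤ) x
    rw [← hz'eq] at hnorm
    refine F11_cos D.Q0 _ _ (Algebra.trace ℤ (𝓞 K) x + Q * Algebra.norm ℤ x) (absNorm_nat z') ?_
    rw [hnorm]
    ring
  have hτc : act τ (Real.cos (2 * Real.pi / Q)) = Real.cos (2 * Real.pi * (1 : ℕ) / Q) := by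
    rw [hτ.hc, hcos, Nat.cast_one, mul_one]
  rcases chiI_sq a (Ideal.span {z'}) with h3 | h3
  · left
    have h4 : Co a Q τ 1 1 := ⟨by rw [hτ.hs, h3], hτc⟩
    have h5 : τ = 1 := Co.ext h4 (Co.one (se_mem a Q) (cos_mem a Q))
    intro x hx
    rw [hcomp x hx, h5, act_one_left (hLF hx)]
  · right
    have h4 : Co a Q τ (-1) 1 := ⟨by rw [hτ.hs, h3], hτc⟩
    have h5 : τ = κ := Co.ext h4 hκ
    intro x hx
    rw [hcomp x hx, h5]

end Pool.Agent.STt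
end
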