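import Pool.Agent.Lib.MP_1ef7cf_nt_g.Mg.G054
import Pool.Agent.Lib.MP_1ef7cf_nt_t.U5
import Pool.Agent.Lib.MP_1ef7cf_nt_g.Mg.G067
import Pool.Agent.Lib.MP_1ef7cf_nt_t.V3

section

/-!
# Extensions of `2`-power degree which are unramified outside the only prime above `2`
-/

set_option autoImplicit false

open NumberField IsDedekindDomain nonZeroDivisors IntermediateField

namespace Pool.Agent.STt

open Pool.Agent.ST Pool.Agent.STb Pool.Agent.STg.F Pool.Agent.STg

variable {K : Type*} [Field K] [NumberField K] [Algebra K ℝ] {σ₂ : K →+* ℝ} {e : (𝓞 K)ˣ}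
  {M : IntermediateField K ℝ}

lemma act_se (F : STg.F.FD σ₂ e) (h : se e ∈ M) (γ : M ≃ₐ[K] M) :
    act γ (se e) = se e ∨ act γ (se e) = -se e := by
  apply sq_eq_sq_iff_eq_or_eq_neg.1
  have h4 : se e ^ 2 = algebraMap K ℝ ((e : 𝓞 K) : K) := Real.sq_sqrt F.pos.le
  rw [← act_pow γ h, h4, act_algebraMap]

lemma se_pos (F : STg.F.FD σ₂ e) : 0 < se e := Real.sqrt_pos.2 F.pos

/-- the quadratic character of `√e` -/
lemma exists_psi (F : STg.F.FD σ₂ e) (h : se e ∈ M) :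
    ∃ ψ : (M ≃ₐ[K] M) →* ℤˣ, ∀ γ, ψ γ = 1 ↔ act γ (se e) = se e := by
  classical
  have hp := se_pos F
  have hne : se e ≠ -se e := by
    intro h1
    linarith
  refine ⟨{ toFun := fun γ => if act γ (se e) = se e then 1 else -1
            map_one' := if_pos (act_one_left h)
            map_mul' := fun γ δ => ?_ }, fun γ => ?_⟩
  · rw [act_comp γ δ h]
    rcases act_se F h γ with h1 | h1 <;> rcases act_se F h δ with h2 | h2
    · rw [h2, if_pos h1, if_pos rfl, one_mul]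
    · rw [h2, act_neg γ h, h1, if_pos rfl, if_neg (Ne.symm hne), one_mul]
    · rw [h2, h1, if_neg (Ne.symm hne), if_pos rfl, mul_one]
    · rw [h2, act_neg γ h, h1, neg_neg, if_pos rfl, if_neg (Ne.symm hne)]
      rfl
  · change (if act γ (se e) = se e then (1 : ℤˣ) else -1) = 1 ↔ _
    constructor
    · intro h1
      by_contra h2
      rw [if_neg h2] at h1
      exact absurd h1 (by decide)
    · intro h1
      rw [if_pos h1]

/-- the conjugation changes the sign of `√e` -/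
lemma conj_se (F : STg.F.FD σ₂ e) [FiniteDimensional K M] {c : M ≃ₐ[K] M} (hc : IsConj σ₂ M c)
    (h : se e ∈ M) : act c (se e) ≠ se e := by
  intro h1
  have h4 : se e ^ 2 = algebraMap K ℝ ((e : 𝓞 K) : K) := Real.sq_sqrt F.pos.le
  have he0 : ((e : 𝓞 K) : K) ≠ 0 := by
    intro h0
    have h5 := F.pos
    rw [h0, map_zero] at h5
    exact lt_irrefl _ h5
  have h2 := sq_pos_of_fix hc h h1 he0 h4
  rw [F.nrm] at h2
  have h3 := inv_pos.2 F.pos
  linarith

/-- the powers of the automorphisms fix the cosines -/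
lemma fix_cos (γ : M ≃ₐ[K] M) (i : ℕ)
    (h : Real.cos (2 * Real.pi / 2 ^ i) ∈ M) :
    act (γ ^ (2 ^ i)) (Real.cos (2 * Real.pi / 2 ^ i)) = Real.cos (2 * Real.pi / 2 ^ i) := by
  induction i with
  | zero =>
    have h1 : Real.cos (2 * Real.pi / 2 ^ 0) = 1 := by
      rw [pow_zero, div_one, Real.cos_two_pi]
    rw [h1, act_one_right]
  | succ i ih =>
    set δ := γ ^ (2 ^ i) with hδ
    have hi : Real.cos (2 * Real.pi / 2 ^ i) ∈ M := cos_mem_of_le M (Nat.le_succ i) h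
    have h1 := ih hi
    set x := Real.cos (2 * Real.pi / 2 ^ (i + 1)) with hx
    have h2 : 2 * x ^ 2 = 1 + Real.cos (2 * Real.pi / 2 ^ i) := by
      have h3 : 2 * Real.pi / 2 ^ i = 2 * (2 * Real.pi / 2 ^ (i + 1)) := by
        rw [pow_succ]
        field_simp
      rw [h3, Real.cos_two_mul, ← hx]
      ring
    have h4 : 2 * (act δ x) ^ 2 = 2 * x ^ 2 := by
      rw [← act_pow δ h, ← F25_act_two δ (pow_mem h 2), h2, act_add δ (one_mem _) hi, act_one_right, h1]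
    have h5 : (act δ x) ^ 2 = x ^ 2 := by linarith
    have h6 : γ ^ (2 ^ (i + 1)) = δ * δ := by
      rw [hδ, ← pow_add]
      congr 1
      rw [pow_succ]
      ring
    rw [h6, act_comp δ δ h]
    rcases sq_eq_sq_iff_eq_or_eq_neg.1 h5 with h7 | h7
    · rw [h7, h7]
    · rw [h7, act_neg δ h, h7, neg_neg]

/-- the exponent of the Galois group -/
lemma pow_fix_Lf (F : STg.F.FD σ₂ e) {k : ℕ} (hle : Lf e k ≤ M) (γ : M ≃ₐ[K] M) :
    ∀ x ∈ Lf e k, act (γ ^ (2 ^ (k + 1))) x = x := by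
  have hfd := fd_Lf F k
  have hab := abelian_Lf F k
  rw [← res_eq_one_iff hle]
  apply ext_coords
  · rw [act_res hle _ (se_mem e k), act_one_left (se_mem e k)]
    have h1 : act (γ ^ 2) (se e) = se e := by
      have hm := hle (se_mem e k)
      rw [pow_two, act_comp _ _ hm]
      rcases act_se F hm γ with h2 | h2
      · rw [h2, h2]
      · rw [h2, act_neg γ hm, h2, neg_neg]
    have h2 : ∀ n : ℕ, act ((γ ^ 2) ^ n) (se e) = se e := by
      have hm := hle (se_mem e k)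
      intro n
      induction n with
      | zero => rw [pow_zero, act_one_left hm]
      | succ n ih => rw [pow_succ, act_comp _ _ hm, h1, ih]
    have h3 : γ ^ (2 ^ (k + 1)) = (γ ^ 2) ^ (2 ^ k) := by
      rw [← pow_mul, pow_succ]
      congr 1
      ring
    rw [h3, h2]
  · rw [act_res hle _ (cos_mem e k), act_one_left (cos_mem e k)]
    have hm := hle (cos_mem e k)
    have h1 := fix_cos γ k hm
    have h3 : γ ^ (2 ^ (k + 1)) = γ ^ (2 ^ k) * γ ^ (2 ^ k) := by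
      rw [← pow_add]
      congr 1
      rw [pow_succ]
      ring
    rw [h3, act_comp _ _ hm, h1, h1]

lemma pow_fix_L {L : IntermediateField K ℝ} [FiniteDimensional K L] [IsGalois K L] {a : ℕ}
    (ha : Module.finrank K L = 2 ^ a) (hle : L ≤ M) (γ : M ≃ₐ[K] M) :
    ∀ x ∈ L, act (γ ^ (2 ^ a)) x = x := by
  rw [← res_eq_one_iff hle, map_pow, ← ha, ← IsGalois.card_aut_eq_finrank]
  exact pow_card_eq_one'

/-- **All extensions of `2`-power degree.** If `p` is the only prime above `2` and the index of the subgroup generated by the class of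
`p` is odd, all real abelian extensions of `K` of `2`-power degree which are unramified outside `2` lie in the tower. -/
theorem le_Lf (F : STg.F.FD σ₂ e) {p : PrI K}
    (hp : ∀ v : PrI K, (2 : 𝓞 K) ∈ v.asIdeal → v = p)
    (hodd : Odd (Subgroup.zpowers (ClassGroup.mk0 (P0 p))).index) {L : IntermediateField K ℝ}
    [FiniteDimensional K L] [IsAbelianGalois K L] {a : ℕ} (ha : Module.finrank K L = 2 ^ a)
    (hL : ∀ v : PrI K, (2 : 𝓞 K) ∉ v.asIdeal → UnramAt L v) : L ≤ Lf e (a + 3) := by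
  set k := a + 3 with hk
  have hfd := fd_Lf F k
  have hab := abelian_Lf F k
  have hfdM : FiniteDimensional K (L ⊔ Lf e k : IntermediateField K ℝ) := inferInstance
  have habM : IsAbelianGalois K (L ⊔ Lf e k : IntermediateField K ℝ) := isAbelianGalois_sup
  set M : IntermediateField K ℝ := L ⊔ Lf e k with hM
  have hLM : L ≤ M := le_sup_left
  have hFM : Lf e k ≤ M := le_sup_right
  have hgal : IsGalois K M := inferInstance
  have hun : ∀ v : PrI K, v ≠ p → UnramAt M v := by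
    intro v hv
    have h2 : (2 : 𝓞 K) ∉ v.asIdeal := fun h => hv (hp v h)
    exact unram_sup (hM.le) hLM hFM (hL v h2) (fun P hP hPv => unram F k v h2 P hPv)
  obtain ⟨c, hc⟩ := exists_isConj (L := M) σ₂
  have hsM : se e ∈ M := hFM (se_mem e k)
  obtain ⟨ψ, hψ⟩ := exists_psi F hsM
  have hψc : ψ c = -1 := by
    rcases Int.units_eq_one_or (ψ c) with h | h
    · exact absurd ((hψ c).1 h) (conj_se F hc hsM)
    · exact h
  have hpow : ∀ γ : M ≃ₐ[K] M, γ ^ (2 ^ (a + (k + 1))) = 1 := by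
    intro γ
    apply eq_of_eq_on_sup hM.le hLM hFM
    · intro x hx
      rw [act_one_left (hLM hx)]
      have h1 : γ ^ (2 ^ (a + (k + 1))) = (γ ^ (2 ^ (k + 1))) ^ (2 ^ a) := by
        rw [← pow_mul, pow_add]
        congr 1
        ring
      rw [h1]
      exact pow_fix_L ha hLM _ x hx
    · intro x hx
      rw [act_one_left (hFM hx)]
      have h1 : γ ^ (2 ^ (a + (k + 1))) = (γ ^ (2 ^ a)) ^ (2 ^ (k + 1)) := by
        rw [← pow_mul, pow_add]
      rw [h1]
      exact pow_fix_Lf F hFM _ x hx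
  have h2G : IsPGroup 2 (M ≃ₐ[K] M) := fun γ => ⟨_, hpow γ⟩
  obtain ⟨g, hg1, hg2⟩ := exists_gen_ker (G := M ≃ₐ[K] M) (fun a b => mul_comm' a b) h2G hc.sq ψ hψc
    (fun χ₁ χ₂ h1 h2 n1 n2 => char_uniq F hodd hun hc χ₁ χ₂ h1 h2 n1 n2)
  -- the chain of the fixing subgroups
  have hle : ∀ j, j ≤ k → Lf e j ≤ M := fun j hj => (Lf_mono e hj).trans hFM
  let D : ℕ → Subgroup (M ≃ₐ[K] M) := fun j =>
    { carrier := {γ | ∀ x ∈ Lf e j, x ∈ M → act γ x = x}
      one_mem' := fun x _ hx => act_one_left hx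
      mul_mem' := fun {γ δ} h1 h2 x hx hxM => by
        rw [act_comp γ δ hxM, h2 x hx hxM, h1 x hx hxM]
      inv_mem' := fun {γ} h1 x hx hxM => by
        have h3 := act_inv_act γ hxM
        rwa [h1 x hx hxM] at h3 }
  have hD : ∀ j γ, γ ∈ D j ↔ ∀ x ∈ Lf e j, x ∈ M → act γ x = x := fun _ _ => Iff.rfl
  have chain : ∀ j, j + 3 ≤ k → ∀ x ∈ D (j + 3), ∃ i : ℤ, x = (g ^ (2 ^ j)) ^ i := by
    intro j
    induction j with
    | zero =>
      intro _ x hx
      rw [pow_zero, pow_one]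
      exact hg2 x ((hψ x).2 (hx _ (se_mem e _) hsM))
    | succ j ih =>
      intro hjk
      have h1 := ih (by omega)
      have h2 : g ^ (2 ^ (j + 1)) = (g ^ (2 ^ j)) ^ 2 := by rw [← pow_mul, pow_succ]
      rw [h2]
      refine chain_step ⟨a + (k + 1), hpow _⟩ h1 ?_ ?_
      · intro γ hγ x hx hxM
        exact hγ x (Lf_mono e (by omega) hx) hxM
      · intro heq
        apply step_proper F (k := j + 3) (by omega)
        have hcm : Real.cos (2 * Real.pi / 2 ^ (j + 3 + 1)) ∈ M :=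
          hle (j + 3 + 1) (by omega) (cos_mem e _)
        refine mem_of_fixed (hle (j + 3) (by omega)) hcm fun γ hγ => ?_
        have h3 : γ ∈ D (j + 3) := fun x hx _ => hγ x hx
        rw [← heq] at h3
        have h4 : j + 1 + 3 = j + 3 + 1 := by omega
        rw [h4] at h3
        exact h3 _ (cos_mem e _) hcm
  intro x hx
  refine mem_of_fixed hFM (hLM hx) fun γ hγ => ?_
  obtain ⟨i, hi⟩ := chain a (by omega) γ (fun x hx _ => hγ x (by rw [hk]; exact hx))
  have h1 := pow_fix_L ha hLM g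
  rw [← res_eq_one_iff hLM] at h1
  have h2 : res hLM γ = 1 := by
    rw [hi, map_zpow, h1, one_zpow]
  exact (res_eq_one_iff hLM γ).1 h2 x hx

end Pool.Agent.STt
end

section

/-!
# The ray class fields of modulus `2 ^ j`, without the condition that `𝓞 K` is principal
-/

set_option autoImplicit false

open NumberField IsDedekindDomain nonZeroDivisors IntermediateField

namespace Pool.Agent.STt

open Pool.Agent.ST Pool.Agent.STb Pool.Agent.STf Pool.Agent.STg Pool.Agent.STg.F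

variable {K : Type*} [Field K] [NumberField K] [Algebra K ℝ] {σ₂ : K →+* ℝ} {e : (𝓞 K)ˣ}

/-- All ideals prime to `2` whose norm is `± 1` modulo `8` are principal. -/
def Prin8 (K : Type*) [Field K] [NumberField K] : Prop :=
  ∀ I : Ideal (𝓞 K), IsCoprime I (Ideal.span {(2 : 𝓞 K)}) →
    (8 : ℤ) ∣ (Ideal.absNorm I : ℤ) - 1 ∨ (8 : ℤ) ∣ (Ideal.absNorm I : ℤ) + 1 →
    ∃ b : 𝓞 K, I = Ideal.span {b}

lemma inj_of (F : FD σ₂ e) (hpr : Prin8 K) {j k : ℕ} (hk : 3 ≤ k) (hL : Lev e j k) :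
    Function.Injective (F26_hom F hL) := by
  rw [injective_iff_map_eq_one]
  intro A hA
  obtain ⟨I, J, hI, hIm, hJ, rfl⟩ := exists_integral_rep (F26_ne j) A
  have hg := F26_hom_good F hL _ I J hI hJ rfl
  rw [hA] at hg
  obtain ⟨h1, h2⟩ := hg
  rw [act_one_left (se_mem e k)] at h1
  rw [act_one_left (cos_mem e k)] at h2
  have h3 : chiI e I = 1 := by
    have h4 : ((chiI e I : ℤ) : ℝ) = 1 := by
      have h5 : ((chiI e I : ℤ) : ℝ) * se e = 1 * se e := by rw [← h1, one_mul]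
      exact mul_right_cancel₀ (F26_se_ne F) h5
    exact_mod_cast h4
  have h5 : (2 : ℤ) ^ k ∣ (1 : ℤ) - ((Ideal.absNorm I : ℕ) : ℤ) ∨
      (2 : ℤ) ^ k ∣ (1 : ℤ) + ((Ideal.absNorm I : ℕ) : ℤ) := by
    rw [← cos_mod_iff]
    push_cast
    rw [mul_one]
    exact h2
  have hcopI : IsCoprime I (Ideal.span {(2 : 𝓞 K)}) := (F26_cop (by have := hL.j4; omega)).1 hIm
  have h8 : (8 : ℤ) ∣ 2 ^ k := by
    have : (8 : ℤ) = 2 ^ 3 := by norm_num
    rw [this]
    exact pow_dvd_pow 2 hk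
  obtain ⟨b, hb'⟩ := hpr I hcopI (by
    rcases h5 with h5 | h5
    · left
      have := (dvd_neg).2 (h8.trans h5)
      rwa [neg_sub] at this
    · right
      have := h8.trans h5
      rwa [add_comm] at this)
  have hN : Ideal.absNorm I = (Algebra.norm ℤ b).natAbs := by rw [hb', absNorm_nat]
  have h6 : (2 : ℤ) ^ k ∣ Algebra.norm ℤ b - 1 ∨ (2 : ℤ) ^ k ∣ Algebra.norm ℤ b + 1 := by
    rw [hN] at h5
    rcases Int.natAbs_eq (Algebra.norm ℤ b) with h | h
    · rw [h]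
      rcases h5 with h5 | h5
      · left
        have := (dvd_neg).2 h5
        rwa [neg_sub] at this
      · right
        rwa [add_comm] at h5
    · rw [h]
      rcases h5 with h5 | h5
      · right
        rwa [neg_add_eq_sub]
      · left
        have := (dvd_neg).2 h5
        rwa [neg_add, add_comm] at this
  have hcop : IsCoprime (Ideal.span {b}) (Ideal.span {(2 : 𝓞 K)}) := by
    rw [← hb']
    exact hcopI
  obtain ⟨i, hi⟩ := hL.gen b hcop h6
  -- the generator congruent to one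
  obtain ⟨b₁, hb₁, hspan⟩ : ∃ b₁ : 𝓞 K, b₁ - 1 ∈ (Ideal.span {(2 : 𝓞 K)}) ^ j ∧
      Ideal.span {b₁} = I := by
    have he : ((e⁻¹ : (𝓞 K)ˣ) : 𝓞 K) ^ i * (e : 𝓞 K) ^ i = 1 := by
      rw [← mul_pow, Units.inv_mul, one_pow]
    have hu : IsUnit (((e⁻¹ : (𝓞 K)ˣ) : 𝓞 K) ^ i) := (Units.isUnit _).pow i
    rcases hi with hi | hi
    · refine ⟨((e⁻¹ : (𝓞 K)ˣ) : 𝓞 K) ^ i * b, ?_, ?_⟩
      · have : ((e⁻¹ : (𝓞 K)ˣ) : 𝓞 K) ^ i * b - 1 =
            ((e⁻¹ : (𝓞 K)ˣ) : 𝓞 K) ^ i * (b - (e : 𝓞 K) ^ i) := by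
          linear_combination he
        rw [this]
        exact Ideal.mul_mem_left _ _ hi
      · rw [hb', Ideal.span_singleton_mul_left_unit hu]
    · refine ⟨-(((e⁻¹ : (𝓞 K)ˣ) : 𝓞 K) ^ i * b), ?_, ?_⟩
      · have : -(((e⁻¹ : (𝓞 K)ˣ) : 𝓞 K) ^ i * b) - 1 =
            -(((e⁻¹ : (𝓞 K)ˣ) : 𝓞 K) ^ i * (b + (e : 𝓞 K) ^ i)) := by
          linear_combination he
        rw [this]
        exact Ideal.neg_mem_iff _ |>.2 (Ideal.mul_mem_left _ _ hi)
      · rw [Ideal.span_singleton_neg, hb', Ideal.span_singleton_mul_left_unit hu]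
  have hrec := chi_rec F (F26_le16 hL.j4 hb₁)
  rw [hspan, h3] at hrec
  have hb0 : b₁ ≠ 0 := by
    rintro rfl
    apply hI
    rw [← hspan, Ideal.span_singleton_eq_bot]
  have hpos : 0 < σ₂ (b₁ : K) := by
    rcases lt_trichotomy (σ₂ (b₁ : K)) 0 with h | h | h
    · have := hrec.2 h
      norm_num at this
    · exfalso
      apply hb0
      have h7 : (b₁ : K) = 0 := (map_eq_zero σ₂).1 h
      exact_mod_cast h7
    · exact h
  rw [cls_eq_one_iff]
  refine ⟨(b₁ : K), oneMod_of_sub_one_mem hb₁, hpos, ?_⟩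
  rw [hJ, ← hspan, coe_span_singleton]

theorem exists_rcf' (F : FD σ₂ e) (hpr : Prin8 K) {j k : ℕ} (hk : 3 ≤ k) (hL : Lev e j k) :
    ∃ Art : RayClassGroup σ₂ ((Ideal.span {(2 : 𝓞 K)}) ^ j) ≃* (Lf e k ≃ₐ[K] Lf e k),
      IsRayClassField σ₂ ((Ideal.span {(2 : 𝓞 K)}) ^ j) (Lf e k) Art := by
  haveI := fd_Lf F k
  haveI := abelian_Lf F k
  haveI := numberField_of_fd (Lf e k)
  have hj : j ≠ 0 := by have := hL.j4; omega
  refine ⟨MulEquiv.ofBijective (F26_hom F hL) ⟨inj_of F hpr hk hL, F26_surj F hL⟩,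
    inferInstance, inferInstance, ?_⟩
  intro v J hJ P hP hPv
  have hv : ¬ v.asIdeal ∣ (Ideal.span {(2 : 𝓞 K)}) ^ j :=
    coprime_prime_iff.1 (coprime_of_mem_primeTo hJ J.2)
  have h2 := F26_two hj hv
  refine ⟨unram F k v h2 P hPv, ?_⟩
  have hP0 : P ≠ ⊥ := by
    rintro rfl
    apply v.ne_bot
    rw [← hPv, Ideal.under, Ideal.comap_bot_of_injective]
    exact FaithfulSMul.algebraMap_injective _ _
  have hund : und K (⟨P, hP, hP0⟩ : PrI (Lf e k)) = v := HeightOneSpectrum.ext hPv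
  obtain ⟨φ, hφ⟩ := exists_isFrob (K := K) (⟨P, hP, hP0⟩ : PrI (Lf e k))
  have h3 := F26_frob F (⟨P, hP, hP0⟩ : PrI (Lf e k)) (by rw [hund]; exact h2) hφ
  rw [hund] at h3
  have h4 := F26_hom_good F hL (cls σ₂ _ J) v.asIdeal J v.ne_bot hJ rfl
  have h5 : F26_hom F hL (cls σ₂ _ J) = φ := F26_ext h4 h3 rfl rfl
  intro x
  have h6 := hφ x
  rw [hund] at h6
  change F26_hom F hL (cls σ₂ _ J) • x - _ ∈ P
  rw [h5]
  exact h6

/-- the full assertion if the ideals with norm `± 1` modulo `8` are principal -/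
theorem starkTate_main' (D : LemData) (F : FD σ₂ e) (hpr : Prin8 K) {a : ℕ}
    (hlev : ∀ j, 4 ≤ j → Lev e j (j + a)) {m : Ideal (𝓞 K)}
    (hm : ∀ v : HeightOneSpectrum (𝓞 K), v.asIdeal ∣ m ↔ (2 : 𝓞 K) ∈ v.asIdeal) (hm0 : m ≠ ⊥) :
    StarkRQ.StarkTate σ₂ m := by
  obtain ⟨i, hi⟩ := exists_pow_le hm hm0
  obtain ⟨U, hT⟩ := exists_ud (tre_ne_zero F)
  obtain ⟨N₀, hN₀, hN⟩ := exists_N D F U hT
  have hm1 : m ≠ ⊤ := ne_top_of_two fun v hv => (hm v).2 hv
  obtain ⟨j₁, hj₁i, hj₁4⟩ : ∃ j₁, i ≤ j₁ ∧ 4 ≤ j₁ := ⟨max i 4, le_max_left _ _, le_max_right _ _⟩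
  obtain ⟨j, hj1, hj2⟩ : ∃ j, j₁ + 1 ≤ j ∧ N₀ ≤ j := ⟨max (j₁ + 1) N₀, le_max_left _ _, le_max_right _ _⟩
  obtain ⟨A₁, hA₁⟩ := exists_rcf' F hpr (by omega) (hlev j₁ hj₁4)
  obtain ⟨A, hA⟩ := exists_rcf' F hpr (by omega) (hlev j (by omega))
  have hle₁ : (Ideal.span {(2 : 𝓞 K)}) ^ j₁ ≤ m := (Ideal.pow_le_pow_right hj₁i).trans hi
  have hle : (Ideal.span {(2 : 𝓞 K)}) ^ j ≤ m := (Ideal.pow_le_pow_right (by omega)).trans hi
  obtain ⟨H, Art, hr, hH⟩ := rcf_same hle₁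
    (fun v hv => (hm v).2 ((Z6_dvd (by omega) v).1 hv)) hA₁
  have hfdH := hr.finite
  have habH : IsAbelianGalois K H := hr.isRCF.abelian
  have hfdN : FiniteDimensional K (Lf e (j + a)) := fd_Lf F _
  have hHN : H ≤ Lf e (j + a) := hH.trans (Lf_mono e (by omega))
  have htd := td_xv D F U hT (Z6_dvd (by omega)) (Z6_ne_bot j) hA (k := j + a) (J := j + a + 11)
    (by omega) (by omega) (by omega) le_rfl
  have hd := htd.down F.deg F.ne hle (Z6_ne_bot j) hm0 hm1
    (fun v hv => (hm v).2 ((Z6_dvd (by omega) v).1 hv)) hr le_rfl hHN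
  have hab := hN (j + a) (by omega) (j + a + 11) le_rfl hfdN H hHN
    (hH.trans (Lf_mono e (by omega)))
  exact starkTate_of_in hm0 hr (starkTateIn_of_td F.deg F.ne hm0 hm1 hd hab)

omit [Algebra K ℝ] in
lemma prin8_of_pid (h : IsPrincipalIdealRing (𝓞 K)) : Prin8 K := by
  intro I _ _
  obtain ⟨b, hb⟩ := (IsPrincipalIdealRing.principal I).principal
  exact ⟨b, hb⟩

omit [Algebra K ℝ] in
lemma exists_span_of_mk {I : Ideal (𝓞 K)} (hI : I ∈ (Ideal (𝓞 K))⁰)
    (h : ClassGroup.mk0 (⟨I, hI⟩ : (Ideal (𝓞 K))⁰) = 1) : ∃ b : 𝓞 K, I = Ideal.span {b} := by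
  rw [ClassGroup.mk0_eq_one_iff] at h
  obtain ⟨b, hb⟩ := h
  exact ⟨b, by simpa using hb⟩

/-- the class number two case -/
lemma prin8_of_two (F : FD σ₂ e) {a : ℤ} (h : tre e = 2 * a) (ha : a % 8 = 3 ∨ a % 8 = 5)
    (hcl : Nat.card (ClassGroup (𝓞 K)) = 2) : Prin8 K := by
  -- the ideal of norm two
  set Q : Ideal (𝓞 K) := Ideal.span {(2 : 𝓞 K), dl e a} with hQ
  have hsq := dl_sq F h
  obtain ⟨g, hg⟩ : ∃ g : ℤ, a ^ 2 + 1 = 4 * g + 2 := by
    rcases ha with ha | ha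
    · obtain ⟨x, hx⟩ : ∃ x, a = 8 * x + 3 := ⟨a / 8, by omega⟩
      exact ⟨16 * x ^ 2 + 12 * x + 2, by rw [hx]; ring⟩
    · obtain ⟨x, hx⟩ : ∃ x, a = 8 * x + 5 := ⟨a / 8, by omega⟩
      exact ⟨16 * x ^ 2 + 20 * x + 6, by rw [hx]; ring⟩
  have hgc : dl e a ^ 2 = 4 * (g : 𝓞 K) + 2 := by
    have := congrArg (fun z : ℤ => (z : 𝓞 K)) hg
    push_cast at this
    rw [hsq, this]
  have hQQ : Q * Q = Ideal.span {(2 : 𝓞 K)} := by
    apply le_antisymm
    · rw [hQ, Ideal.span_pair_mul_span_pair, Ideal.span_le]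
      intro z hz
      simp only [Set.mem_insert_iff, Set.mem_singleton_iff] at hz
      rw [SetLike.mem_coe, Ideal.mem_span_singleton]
      rcases hz with rfl | rfl | rfl | rfl
      · exact Dvd.intro _ rfl
      · exact Dvd.intro _ rfl
      · exact Dvd.intro_left _ rfl
      · exact ⟨2 * (g : 𝓞 K) + 1, by linear_combination hgc⟩
    · rw [Ideal.span_singleton_le_iff_mem]
      have h2 : (2 : 𝓞 K) = dl e a * dl e a - (g : 𝓞 K) * (2 * 2) := by linear_combination -hgc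
      rw [h2]
      have m1 : dl e a ∈ Q := Ideal.subset_span (by simp)
      have m2 : (2 : 𝓞 K) ∈ Q := Ideal.subset_span (by simp)
      exact Ideal.sub_mem _ (Ideal.mul_mem_mul m1 m1) (Ideal.mul_mem_left _ _ (Ideal.mul_mem_mul m2 m2))
  have hn2 : Algebra.norm ℤ (2 : 𝓞 K) = 4 := by
    have := norm_uw F h 2 0
    push_cast at this
    rw [zero_mul, add_zero] at this
    rw [this]
    norm_num
  have hNQ : Ideal.absNorm Q = 2 := by
    have h2 : Ideal.absNorm Q * Ideal.absNorm Q = 4 := by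
      rw [← map_mul, hQQ, absNorm_nat, hn2]
      rfl
    nlinarith
  have hQ0 : Q ∈ (Ideal (𝓞 K))⁰ := by
    apply mem_nonZeroDivisors_of_ne_zero
    rintro h0
    rw [h0, Ideal.zero_eq_bot, Ideal.absNorm_bot] at hNQ
    omega
  -- an ideal with norm `2 r` which is principal
  have key : ∀ (I : Ideal (𝓞 K)) (b : 𝓞 K), Odd (Ideal.absNorm I : ℤ) → Q * I = Ideal.span {b} →
      (Ideal.absNorm I : ℤ) % 8 = 3 ∨ (Ideal.absNorm I : ℤ) % 8 = 5 := by
    intro I b hodd hb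
    apply norm_two F h ha b hodd
    have h2 : (Algebra.norm ℤ b).natAbs = 2 * Ideal.absNorm I := by
      rw [← absNorm_nat, ← hb, map_mul, hNQ]
    rcases Int.natAbs_eq (Algebra.norm ℤ b) with h3 | h3
    · left; rw [h3, h2]; push_cast; ring
    · right; rw [h3, h2]; push_cast; ring
  have hQ1 : ClassGroup.mk0 (⟨Q, hQ0⟩ : (Ideal (𝓞 K))⁰) ≠ 1 := by
    intro h1
    obtain ⟨b, hb⟩ := exists_span_of_mk hQ0 h1
    have h2 := key ⊤ b (by rw [← Ideal.one_eq_top, map_one]; exact odd_one) (by rw [Ideal.mul_top, hb])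
    rw [← Ideal.one_eq_top, map_one] at h2
    norm_num at h2
  intro I hI hN
  have hI0 : I ≠ ⊥ := by
    rintro rfl
    rw [Ideal.absNorm_bot] at hN
    rcases hN with hN | hN <;> norm_num at hN
  have hIm : I ∈ (Ideal (𝓞 K))⁰ := mem_nonZeroDivisors_of_ne_zero hI0
  apply exists_span_of_mk hIm
  by_contra hne
  have hmul : ClassGroup.mk0 (⟨Q * I, mul_mem hQ0 hIm⟩ : (Ideal (𝓞 K))⁰) = 1 := by
    have h1 : (⟨Q * I, mul_mem hQ0 hIm⟩ : (Ideal (𝓞 K))⁰) = ⟨Q, hQ0⟩ * ⟨I, hIm⟩ := rfl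
    rw [h1, map_mul]
    have hfin : Finite (ClassGroup (𝓞 K)) := inferInstance
    obtain ⟨x, y, hxy, huniv⟩ := Nat.card_eq_two_iff.1 hcl
    have hall : ∀ z : ClassGroup (𝓞 K), z = x ∨ z = y := by
      intro z
      have : z ∈ ({x, y} : Set (ClassGroup (𝓞 K))) := by rw [huniv]; trivial
      simpa using this
    set q := ClassGroup.mk0 (⟨Q, hQ0⟩ : (Ideal (𝓞 K))⁰)
    set i := ClassGroup.mk0 (⟨I, hIm⟩ : (Ideal (𝓞 K))⁰)
    have hqi : q = i := by
      rcases hall q with h2 | h2 <;> rcases hall i with h3 | h3 <;> rcases hall 1 with h4 | h4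
      · rw [h2, h3]
      · rw [h2, h3]
      · exact absurd (h2.trans h4.symm) hQ1
      · exact absurd (h3.trans h4.symm) hne
      · exact absurd (h3.trans h4.symm) hne
      · exact absurd (h2.trans h4.symm) hQ1
      · rw [h2, h3]
      · rw [h2, h3]
    rw [hqi, ← pow_two, ← hcl]
    exact pow_card_eq_one'
  obtain ⟨b, hb⟩ := exists_span_of_mk _ hmul
  have hodd : Odd (Ideal.absNorm I : ℤ) := by
    rw [Int.odd_iff]
    rcases hN with hN | hN <;> omega
  have h2 := key I b hodd hb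
  rcases hN with hN | hN <;> omega

end Pool.Agent.STt
end
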