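import Pool.Agent.Lib.MP_1ef7cf_nt_g.Mg.G050

section

/-!
# Units of norm `-1` and trace `2 a`, `a` odd: coordinates modulo powers of `2`

`δ = e - a`, `δ ^ 2 = a ^ 2 + 1`.
-/

set_option autoImplicit false

open NumberField IsDedekindDomain nonZeroDivisors IntermediateField

namespace Pool.Agent.STt

open Pool.Agent.ST Pool.Agent.STg Pool.Agent.STg.F

variable {K : Type*} [Field K] [NumberField K] [Algebra K ℝ] {σ₂ : K →+* ℝ} {e : (𝓞 K)ˣ}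

/-- the square root of `a ^ 2 + 1` -/
def dl (e : (𝓞 K)ˣ) (a : ℤ) : 𝓞 K := (e : 𝓞 K) - (a : 𝓞 K)

lemma dl_sq (F : FD σ₂ e) {a : ℤ} (h : tre e = 2 * a) : dl e a ^ 2 = (a : 𝓞 K) ^ 2 + 1 := by
  have h1 := e_sq F
  rw [h] at h1
  push_cast at h1
  unfold dl
  linear_combination h1

lemma norm_uw (F : FD σ₂ e) {a : ℤ} (h : tre e = 2 * a) (u w : ℤ) :
    Algebra.norm ℤ ((u : 𝓞 K) + (w : 𝓞 K) * dl e a) = u ^ 2 - (a ^ 2 + 1) * w ^ 2 := by
  have h1 := norm_lin F (u - w * a) w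
  rw [h] at h1
  have h2 : (((u - w * a : ℤ) : 𝓞 K) + (w : 𝓞 K) * (e : 𝓞 K)) = (u : 𝓞 K) + (w : 𝓞 K) * dl e a := by
    unfold dl
    push_cast
    ring
  rw [h2] at h1
  rw [h1]
  ring

/-- the norm modulo `m` -/
lemma norm_add_mul (F : FD σ₂ e) (m : ℤ) (x y : 𝓞 K) :
    ∃ r : ℤ, Algebra.norm ℤ (x + (m : 𝓞 K) * y) = Algebra.norm ℤ x + m * r := by
  refine ⟨Algebra.trace ℤ (𝓞 K) (x * ((Algebra.trace ℤ (𝓞 K) y : ℤ) - y)) + m * Algebra.norm ℤ y, ?_⟩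
  have h1 := norm_real F (x + (m : 𝓞 K) * y)
  have h2 := norm_real F x
  have h3 := norm_real F y
  have h4 := trace_real F y
  have h5 := trace_real F (x * ((Algebra.trace ℤ (𝓞 K) y : ℤ) - y))
  apply Int.cast_injective (α := ℝ)
  push_cast
  rw [h1, h2, h3, h5]
  simp only [map_add, map_sub, map_mul, map_intCast]
  rw [h4]
  ring

/-- the elements of `𝓞 K` have coordinates with odd denominator -/
lemma exists_coord (F : FD σ₂ e) {a : ℤ} (h : tre e = 2 * a) (ha : Odd a) (x : 𝓞 K) :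
    Even (Algebra.trace ℤ (𝓞 K) x) ∧
    ∃ n u w : ℤ, Odd n ∧ (n : 𝓞 K) * x = (u : 𝓞 K) + (w : 𝓞 K) * dl e a := by
  set t := Algebra.trace ℤ (𝓞 K) x with ht
  set t' := Algebra.trace ℤ (𝓞 K) (x * dl e a) with ht'
  set N := Algebra.norm ℤ x with hN
  have e1 := trace_real F x
  have e2 := trace_real F (x * dl e a)
  have e3 := norm_real F x
  have e4 := trace_real F (e : 𝓞 K)
  rw [← ht] at e1
  rw [← ht'] at e2
  rw [← hN] at e3
  have e4' : ((2 * a : ℤ) : ℝ) = algebraMap K ℝ ((e : 𝓞 K) : K) + σ₂ ((e : 𝓞 K) : K) := by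
    rw [← e4]
    have : Algebra.trace ℤ (𝓞 K) (e : 𝓞 K) = 2 * a := h
    rw [this]
  push_cast at e4'
  have hd1 : algebraMap K ℝ ((dl e a : 𝓞 K) : K) = algebraMap K ℝ ((e : 𝓞 K) : K) - a := by
    unfold dl
    simp only [map_sub, map_intCast]
  have hd2 : σ₂ ((dl e a : 𝓞 K) : K) = - (algebraMap K ℝ ((e : 𝓞 K) : K) - a) := by
    unfold dl
    simp only [map_sub, map_intCast]
    linear_combination -e4'
  have hdd : (algebraMap K ℝ ((e : 𝓞 K) : K) - a) ^ 2 = (a : ℝ) ^ 2 + 1 := by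
    have h1 := congrArg (fun y : 𝓞 K => algebraMap K ℝ (y : K)) (dl_sq F h)
    simp only [map_pow, map_add, map_one, map_intCast] at h1
    rw [hd1] at h1
    exact h1
  simp only [map_mul] at e2
  rw [hd1, hd2] at e2
  set X := algebraMap K ℝ ((x : 𝓞 K) : K) with hX
  set Y := σ₂ ((x : 𝓞 K) : K) with hY
  set d₁ := algebraMap K ℝ ((e : 𝓞 K) : K) - (a : ℝ) with hd₁
  -- the two identities
  have i1 : (a ^ 2 + 1) * t ^ 2 - t' ^ 2 = 4 * (a ^ 2 + 1) * N := by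
    apply Int.cast_injective (α := ℝ)
    push_cast
    rw [e1, e2, e3]
    linear_combination (-(X - Y) ^ 2) * hdd
  have i2 : (2 * ((a : 𝓞 K) ^ 2 + 1)) * x = (t : 𝓞 K) * ((a : 𝓞 K) ^ 2 + 1) + (t' : 𝓞 K) * dl e a := by
    have hinj : Function.Injective (fun y : 𝓞 K => algebraMap K ℝ (y : K)) := by
      intro a b hab
      exact NumberField.RingOfIntegers.coe_injective ((algebraMap K ℝ).injective hab)
    apply hinj
    simp only [map_add, map_mul, map_pow, map_one, map_intCast, map_ofNat]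
    rw [hd1, e1, e2]
    linear_combination (-(X - Y)) * hdd
  -- parity
  obtain ⟨r, hr⟩ := ha
  set D' : ℤ := 2 * r ^ 2 + 2 * r + 1 with hD'
  have hD : a ^ 2 + 1 = 2 * D' := by
    rw [hr, hD']
    ring
  have hD'odd : Odd D' := ⟨r ^ 2 + r, by rw [hD']; ring⟩
  have j1 : t' ^ 2 = 2 * (D' * (t ^ 2 - 4 * N)) := by
    linear_combination (-1 : ℤ) * i1 + (t ^ 2 - 4 * N) * hD
  have j2 : Even t' := by
    have : Even (t' ^ 2) := by rw [j1]; exact even_two_mul _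
    exact (Int.even_pow.1 this).1
  obtain ⟨p, hp⟩ := j2
  have j3 : 2 * p ^ 2 = D' * (t ^ 2 - 4 * N) := by
    rw [hp] at j1
    linarith
  have j4 : Even t := by
    have h1 : Even (D' * t ^ 2) := by
      have h2 : D' * t ^ 2 = 2 * (p ^ 2 + 2 * (D' * N)) := by linarith
      rw [h2]
      exact even_two_mul _
    rcases Int.even_mul.1 h1 with h2 | h2
    · exact absurd h2 (Int.not_even_iff_odd.2 hD'odd)
    · exact (Int.even_pow.1 h2).1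
  obtain ⟨s, hs⟩ := j4
  have j5 : p ^ 2 = 2 * (D' * (s ^ 2 - N)) := by
    rw [hs] at j3
    linarith
  have j6 : Even p := by
    have : Even (p ^ 2) := by rw [j5]; exact even_two_mul _
    exact (Int.even_pow.1 this).1
  obtain ⟨q, hq⟩ := j6
  refine ⟨⟨s, hs⟩, D', s * D', q, hD'odd, ?_⟩
  have h4 : (4 : 𝓞 K) * ((D' : 𝓞 K) * x) = 4 * (((s * D' : ℤ) : 𝓞 K) + (q : 𝓞 K) * dl e a) := by
    have hDc : (a : 𝓞 K) ^ 2 + 1 = 2 * (D' : 𝓞 K) := by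
      have := congrArg (fun z : ℤ => (z : 𝓞 K)) hD
      push_cast at this
      exact this
    have hsc : (t : 𝓞 K) = 2 * (s : 𝓞 K) := by
      have : t = 2 * s := by omega
      rw [this]
      push_cast
      ring
    have hqc : (t' : 𝓞 K) = 4 * (q : 𝓞 K) := by
      have : t' = 4 * q := by omega
      rw [this]
      push_cast
      ring
    rw [hDc, hsc, hqc] at i2
    push_cast
    linear_combination i2
  exact mul_left_cancel₀ (by norm_num : (4 : 𝓞 K) ≠ 0) h4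

/-- coordinates modulo a power of `2` -/
lemma exists_coord_mod (F : FD σ₂ e) {a : ℤ} (h : tre e = 2 * a) (ha : Odd a) (x : 𝓞 K) (j : ℕ) :
    ∃ (u w : ℤ) (y : 𝓞 K), x = (u : 𝓞 K) + (w : 𝓞 K) * dl e a + 2 ^ j * y := by
  obtain ⟨-, n, u, w, hn, hx⟩ := exists_coord F h ha x
  have hcop : IsCoprime n ((2 : ℤ) ^ j) := by
    apply IsCoprime.pow_right
    obtain ⟨k, hk⟩ := hn
    exact ⟨1, -k, by rw [hk]; ring⟩
  obtain ⟨c, d, hcd⟩ := hcop
  refine ⟨c * u, c * w, (d : 𝓞 K) * x, ?_⟩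
  have h1 : (c : 𝓞 K) * (n : 𝓞 K) + (d : 𝓞 K) * 2 ^ j = 1 := by
    have := congrArg (fun z : ℤ => (z : 𝓞 K)) hcd
    push_cast at this
    exact this
  push_cast
  linear_combination (-x) * h1 + (c : 𝓞 K) * hx

end Pool.Agent.STt
end

section

/-!
# Units of norm `-1` and trace `2 a`, `a` odd: the units modulo powers of `2`
-/

set_option autoImplicit false

open NumberField IsDedekindDomain nonZeroDivisors IntermediateField

namespace Pool.Agent.STt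

open Pool.Agent.ST Pool.Agent.STg Pool.Agent.STg.F

variable {K : Type*} [Field K] [NumberField K] [Algebra K ℝ] {σ₂ : K →+* ℝ} {e : (𝓞 K)ˣ}

/-- the powers `e ^ (2 ^ (j + 1))` -/
lemma pow_two_coord (F : FD σ₂ e) {a : ℤ} (h : tre e = 2 * a) (ha : Odd a) (j : ℕ) :
    ∃ A B o : ℤ, (e : 𝓞 K) ^ (2 ^ (j + 1)) = (A : 𝓞 K) + (B : 𝓞 K) * dl e a ∧
      A ^ 2 = 1 + (a ^ 2 + 1) * B ^ 2 ∧ Odd o ∧ B = 2 ^ (j + 1) * o ∧
      (2 : ℤ) ^ (j + 2) ∣ 2 * (A - 1) := by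
  have hsq := dl_sq F h
  induction j with
  | zero =>
    refine ⟨2 * a ^ 2 + 1, 2 * a, a, ?_, by ring, ha, by ring, ⟨a ^ 2, by ring⟩⟩
    have h1 := e_sq F
    rw [h] at h1
    push_cast at h1
    rw [zero_add, pow_one, h1]
    unfold dl
    push_cast
    ring
  | succ j ih =>
    obtain ⟨A, B, o, h1, h2, ho, hB, hA⟩ := ih
    have hBeven : Even B := by
      rw [hB, pow_succ]
      exact ⟨2 ^ j * o, by ring⟩
    have hAodd : Odd A := by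
      by_contra hcon
      rw [Int.not_odd_iff_even] at hcon
      obtain ⟨x, hx⟩ := hcon
      obtain ⟨y, hy⟩ := hBeven
      rw [hx, hy] at h2
      ring_nf at h2
      omega
    refine ⟨A ^ 2 + (a ^ 2 + 1) * B ^ 2, 2 * A * B, A * o, ?_, ?_, hAodd.mul ho, ?_, ?_⟩
    · have h3 : (e : 𝓞 K) ^ (2 ^ (j + 1 + 1)) = ((e : 𝓞 K) ^ (2 ^ (j + 1))) ^ 2 := by
        rw [← pow_mul]; congr 1
      rw [h3, h1]
      push_cast
      linear_combination ((B : 𝓞 K) ^ 2) * hsq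
    · linear_combination (A ^ 2 + 1 - (a ^ 2 + 1) * B ^ 2) * h2
    · rw [hB]
      ring
    · refine ⟨(a ^ 2 + 1) * (2 ^ (j + 1) * o ^ 2), ?_⟩
      have h3 : A ^ 2 + (a ^ 2 + 1) * B ^ 2 - 1 = 2 * ((a ^ 2 + 1) * B ^ 2) := by linarith
      rw [h3, hB]
      ring

/-- the even powers of `e` take all even second coordinates modulo `2 ^ (j + 1)` -/
lemma exists_even_pow (F : FD σ₂ e) {a : ℤ} (h : tre e = 2 * a) (ha : Odd a) (j : ℕ) (w : ℤ) :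
    ∃ (i : ℕ) (A B : ℤ), (e : 𝓞 K) ^ (2 * i) = (A : 𝓞 K) + (B : 𝓞 K) * dl e a ∧
      A ^ 2 = 1 + (a ^ 2 + 1) * B ^ 2 ∧ (2 : ℤ) ^ (j + 1) ∣ B - 2 * w := by
  have hsq := dl_sq F h
  induction j with
  | zero =>
    refine ⟨0, 1, 0, by simp, by ring, ⟨-w, by ring⟩⟩
  | succ j ih =>
    obtain ⟨i, A, B, h1, h2, c, hc⟩ := ih
    have hB : B = 2 * w + 2 ^ (j + 1) * c := by linarith
    rcases Int.even_or_odd c with hce | hco
    · obtain ⟨r, hr⟩ := hce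
      refine ⟨i, A, B, h1, h2, ⟨r, ?_⟩⟩
      rw [hc, hr]
      ring
    · obtain ⟨A₁, B₁, o, g1, g2, go, gB, gA⟩ := pow_two_coord F h ha j
      have hBeven : Even B := by
        rw [hB, pow_succ]
        exact ⟨w + 2 ^ j * c, by ring⟩
      have hAodd : Odd A := by
        by_contra hcon
        rw [Int.not_odd_iff_even] at hcon
        obtain ⟨x, hx⟩ := hcon
        obtain ⟨y, hy⟩ := hBeven
        rw [hx, hy] at h2
        ring_nf at h2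
        omega
      refine ⟨i + 2 ^ j, A * A₁ + (a ^ 2 + 1) * (B * B₁), A * B₁ + A₁ * B, ?_, ?_, ?_⟩
      · have h3 : 2 * (i + 2 ^ j) = 2 * i + 2 ^ (j + 1) := by ring
        rw [h3, pow_add, h1, g1]
        push_cast
        linear_combination ((B : 𝓞 K) * B₁) * hsq
      · linear_combination (A₁ ^ 2 - (a ^ 2 + 1) * B₁ ^ 2) * h2 + g2
      · obtain ⟨y, hy⟩ := hBeven
        obtain ⟨z, hz⟩ := gA
        obtain ⟨r, hr⟩ : Even (A * o + c) := (hAodd.mul go).add_odd hco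
        refine ⟨r + z * y, ?_⟩
        have h4 : A * B₁ + A₁ * B - 2 * w = 2 ^ (j + 1) * (A * o + c) + (2 * (A₁ - 1)) * y := by
          rw [gB]
          have h5 : B = 2 * y := by omega
          have h6 : B - 2 * w = 2 ^ (j + 1) * c := by linarith
          linear_combination h6 + (A₁ - 1) * h5
        rw [h4, hr, hz]
        ring

/-- the inverse of an even power -/
lemma inv_even_pow (F : FD σ₂ e) {a : ℤ} (h : tre e = 2 * a) {i : ℕ} {A B : ℤ}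
    (h1 : (e : 𝓞 K) ^ (2 * i) = (A : 𝓞 K) + (B : 𝓞 K) * dl e a)
    (h2 : A ^ 2 = 1 + (a ^ 2 + 1) * B ^ 2) :
    ((e⁻¹ : (𝓞 K)ˣ) : 𝓞 K) ^ (2 * i) = (A : 𝓞 K) - (B : 𝓞 K) * dl e a := by
  have hsq := dl_sq F h
  have h3 : ((A : 𝓞 K) + (B : 𝓞 K) * dl e a) * ((A : 𝓞 K) - (B : 𝓞 K) * dl e a) = 1 := by
    have h4 : (A : 𝓞 K) ^ 2 = 1 + ((a : 𝓞 K) ^ 2 + 1) * (B : 𝓞 K) ^ 2 := by
      have := congrArg (fun z : ℤ => (z : 𝓞 K)) h2
      push_cast at this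
      exact this
    linear_combination h4 - ((B : 𝓞 K) ^ 2) * hsq
  have h5 : (e : 𝓞 K) ^ (2 * i) * ((e⁻¹ : (𝓞 K)ˣ) : 𝓞 K) ^ (2 * i) = 1 := by
    rw [← mul_pow, Units.mul_inv, one_pow]
  have h6 : (e : 𝓞 K) ^ (2 * i) ≠ 0 := pow_ne_zero _ e.ne_zero
  apply mul_left_cancel₀ h6
  rw [h5, h1, h3]

/-- `2 ^ (j + 1) ∣ (A - u) (A + u)` for odd numbers -/
lemma odd_sq_dvd {A u : ℤ} (hA : Odd A) (hu : Odd u) {j : ℕ} (h : (2 : ℤ) ^ (j + 1) ∣ A ^ 2 - u ^ 2) :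
    (2 : ℤ) ^ j ∣ u - A ∨ (2 : ℤ) ^ j ∣ u + A := by
  obtain ⟨x, hx⟩ : Even (u - A) := hu.sub_odd hA
  obtain ⟨y, hy⟩ : Even (u + A) := hu.add_odd hA
  rcases Nat.eq_zero_or_pos j with rfl | hj
  · left; simp
  obtain ⟨i, rfl⟩ : ∃ i, j = i + 1 := ⟨j - 1, by omega⟩
  have h1 : A ^ 2 - u ^ 2 = -(4 * (x * y)) := by
    have hx' : u - A = 2 * x := by omega
    have hy' : u + A = 2 * y := by omega
    linear_combination (-(u + A)) * hx' - 2 * x * hy'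
  rw [h1, dvd_neg] at h
  have h2 : (2 : ℤ) ^ i ∣ x * y := by
    have h3 : (2 : ℤ) ^ (i + 1 + 1) = 4 * 2 ^ i := by ring
    rw [h3] at h
    exact Int.dvd_of_mul_dvd_mul_left (by norm_num) h
  -- one of `x`, `y` is odd
  have hxy : Odd (x + y) := by
    have h3 : x + y = u := by omega
    rw [h3]
    exact hu
  rcases Int.even_or_odd x with hxe | hxo
  · have hyo : Odd y := by
      have := hxy.sub_even hxe
      rwa [add_sub_cancel_left] at this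
    left
    have h3 : (2 : ℤ) ^ i ∣ x := by
      apply IsCoprime.dvd_of_dvd_mul_right _ h2
      apply IsCoprime.pow_left
      exact Int.isCoprime_two_left.2 hyo
    obtain ⟨z, hz⟩ := h3
    exact ⟨z, by rw [hx, hz]; ring⟩
  · right
    have h3 : (2 : ℤ) ^ i ∣ y := by
      apply IsCoprime.dvd_of_dvd_mul_left _ h2
      apply IsCoprime.pow_left
      exact Int.isCoprime_two_left.2 hxo
    obtain ⟨z, hz⟩ := h3
    exact ⟨z, by rw [hy, hz]; ring⟩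

/-- the case of an even second coordinate -/
lemma gen_even (F : FD σ₂ e) {a : ℤ} (h : tre e = 2 * a) (ha : Odd a) {j : ℕ} (hj : 2 ≤ j)
    {u w : ℤ} (hu : Odd u)
    (hN : (2 : ℤ) ^ (j + 1) ∣ (u ^ 2 - (a ^ 2 + 1) * (2 * w) ^ 2) - 1 ∨
      (2 : ℤ) ^ (j + 1) ∣ (u ^ 2 - (a ^ 2 + 1) * (2 * w) ^ 2) + 1) :
    ∃ t : (𝓞 K)ˣ, (∃ z : ℤ, t = e ^ z ∨ t = -e ^ z) ∧
      (2 : 𝓞 K) ^ j ∣ (u : 𝓞 K) + ((2 * w : ℤ) : 𝓞 K) * dl e a - (t : 𝓞 K) := by
  have h8 : (8 : ℤ) ∣ 2 ^ (j + 1) := by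
    have : (8 : ℤ) = 2 ^ 3 := by norm_num
    rw [this]
    exact pow_dvd_pow 2 (by omega)
  -- the norm is `1` modulo `8`
  have hmod : (u ^ 2 - (a ^ 2 + 1) * (2 * w) ^ 2) % 8 = 1 := by
    obtain ⟨r, hr⟩ := ha
    obtain ⟨s, hs⟩ := hu
    have h1 : u ^ 2 - (a ^ 2 + 1) * (2 * w) ^ 2 =
        4 * (s * (s + 1)) + 1 - 8 * ((2 * r ^ 2 + 2 * r + 1) * w ^ 2) := by
      rw [hr, hs]
      ring
    obtain ⟨z, hz⟩ := Int.even_mul_succ_self s
    rw [h1, hz]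
    omega
  have hN1 : (2 : ℤ) ^ (j + 1) ∣ (u ^ 2 - (a ^ 2 + 1) * (2 * w) ^ 2) - 1 := by
    rcases hN with hN | hN
    · exact hN
    · exfalso
      have := h8.trans hN
      omega
  obtain ⟨i, A, B, h1, h2, c, hc⟩ := exists_even_pow F h ha j w
  have hB : B = 2 * w + 2 ^ (j + 1) * c := by linarith
  have hBeven : Even B := by
    rw [hB, pow_succ]
    exact ⟨w + 2 ^ j * c, by ring⟩
  have hAodd : Odd A := by
    by_contra hcon
    rw [Int.not_odd_iff_even] at hcon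
    obtain ⟨x, hx⟩ := hcon
    obtain ⟨y, hy⟩ := hBeven
    rw [hx, hy] at h2
    ring_nf at h2
    omega
  have hdvd : (2 : ℤ) ^ (j + 1) ∣ A ^ 2 - u ^ 2 := by
    obtain ⟨z, hz⟩ := hN1
    refine ⟨(a ^ 2 + 1) * (c * (B + 2 * w)) - z, ?_⟩
    have h5 : B - 2 * w = 2 ^ (j + 1) * c := by linarith
    linear_combination h2 - hz + (a ^ 2 + 1) * (B + 2 * w) * h5
  have hcast : ((2 : 𝓞 K)) ^ j = (((2 : ℤ) ^ j : ℤ) : 𝓞 K) := by push_cast; rfl
  rcases odd_sq_dvd hAodd hu hdvd with ⟨z, hz⟩ | ⟨z, hz⟩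
  · refine ⟨e ^ (2 * i), ⟨((2 * i : ℕ) : ℤ), Or.inl (zpow_natCast _ _).symm⟩,
      ⟨(z : 𝓞 K) - 2 * (c : 𝓞 K) * dl e a, ?_⟩⟩
    rw [Units.val_pow_eq_pow_val, h1, hB]
    have hz' : (u : 𝓞 K) - (A : 𝓞 K) = 2 ^ j * (z : 𝓞 K) := by
      have := congrArg (fun z : ℤ => (z : 𝓞 K)) hz
      push_cast at this
      exact this
    push_cast
    linear_combination hz'
  · refine ⟨-(e⁻¹ ^ (2 * i)), ⟨-((2 * i : ℕ) : ℤ), Or.inr (by rw [zpow_neg, zpow_natCast, inv_pow])⟩,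
      ⟨(z : 𝓞 K) - 2 * (c : 𝓞 K) * dl e a, ?_⟩⟩
    rw [Units.val_neg, Units.val_pow_eq_pow_val, inv_even_pow F h h1 h2, hB]
    have hz' : (u : 𝓞 K) + (A : 𝓞 K) = 2 ^ j * (z : 𝓞 K) := by
      have := congrArg (fun z : ℤ => (z : 𝓞 K)) hz
      push_cast at this
      exact this
    push_cast
    linear_combination hz'

/-- the units modulo `2 ^ j` -/
theorem gen_unit (F : FD σ₂ e) {a : ℤ} (h : tre e = 2 * a) (ha : Odd a) {j : ℕ} (hj : 2 ≤ j)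
    (b : 𝓞 K) (hN : (2 : ℤ) ^ (j + 1) ∣ Algebra.norm ℤ b - 1 ∨ (2 : ℤ) ^ (j + 1) ∣ Algebra.norm ℤ b + 1) :
    ∃ t : (𝓞 K)ˣ, (∃ z : ℤ, t = e ^ z ∨ t = -e ^ z) ∧ (2 : 𝓞 K) ^ j ∣ b - (t : 𝓞 K) := by
  obtain ⟨u, w, y, hb⟩ := exists_coord_mod F h ha b (j + 1)
  have hsq := dl_sq F h
  have hD2 : (2 : ℤ) ∣ a ^ 2 + 1 := by
    obtain ⟨r, hr⟩ := ha
    exact ⟨2 * r ^ 2 + 2 * r + 1, by rw [hr]; ring⟩
  have h2j : (2 : ℤ) ∣ 2 ^ (j + 1) := dvd_pow_self 2 (Nat.succ_ne_zero j)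
  -- the norm in coordinates
  have hN2 : (2 : ℤ) ^ (j + 1) ∣ (u ^ 2 - (a ^ 2 + 1) * w ^ 2) - 1 ∨
      (2 : ℤ) ^ (j + 1) ∣ (u ^ 2 - (a ^ 2 + 1) * w ^ 2) + 1 := by
    obtain ⟨r, hr⟩ := norm_add_mul F ((2 : ℤ) ^ (j + 1)) ((u : 𝓞 K) + (w : 𝓞 K) * dl e a) y
    rw [norm_uw F h] at hr
    have hb2 : b = (u : 𝓞 K) + (w : 𝓞 K) * dl e a + (((2 : ℤ) ^ (j + 1) : ℤ) : 𝓞 K) * y := by
      rw [hb]; push_cast; rfl
    rw [← hb2] at hr
    rcases hN with ⟨z, hz⟩ | ⟨z, hz⟩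
    · left
      exact ⟨z - r, by linear_combination hz - hr⟩
    · right
      exact ⟨z - r, by linear_combination hz - hr⟩
  have hu : Odd u := by
    by_contra hcon
    rw [Int.not_odd_iff_even] at hcon
    obtain ⟨x, hx⟩ := hcon
    obtain ⟨d, hd⟩ := hD2
    rw [hx, hd] at hN2
    have e1 : (x + x) ^ 2 - 2 * d * w ^ 2 = 2 * (2 * x ^ 2 - d * w ^ 2) := by ring
    rw [e1] at hN2
    rcases hN2 with hN2 | hN2
    · have := h2j.trans hN2
      omega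
    · have := h2j.trans hN2
      omega
  -- reduction to an even second coordinate
  obtain ⟨t, hte, ht⟩ : ∃ t : (𝓞 K)ˣ, (∃ z : ℤ, t = e ^ z ∨ t = -e ^ z) ∧
      (2 : 𝓞 K) ^ j ∣ (u : 𝓞 K) + (w : 𝓞 K) * dl e a - (t : 𝓞 K) := by
    rcases Int.even_or_odd w with ⟨x, hx⟩ | hwo
    · have hx' : w = 2 * x := by omega
      rw [hx'] at hN2 ⊢
      exact gen_even F h ha hj hu hN2
    · obtain ⟨x, hx⟩ : Even (u - a * w) := hu.sub_odd (ha.mul hwo)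
      have hx' : u - a * w = 2 * x := by omega
      have hu' : Odd (-(a * u) + (a ^ 2 + 1) * w) := by
        obtain ⟨d, hd⟩ := hD2
        rw [hd]
        exact ((ha.mul hu).neg).add_even ⟨d * w, by ring⟩
      have hnorm : (-(a * u) + (a ^ 2 + 1) * w) ^ 2 - (a ^ 2 + 1) * (2 * x) ^ 2 =
          -(u ^ 2 - (a ^ 2 + 1) * w ^ 2) := by
        rw [← hx']
        ring
      obtain ⟨t', ⟨z', hz'⟩, y', ht'⟩ := gen_even F h ha hj hu' (w := x) (by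
        rw [hnorm]
        rcases hN2 with ⟨z, hz⟩ | ⟨z, hz⟩
        · right
          exact ⟨-z, by linear_combination -hz⟩
        · left
          exact ⟨-z, by linear_combination -hz⟩)
      refine ⟨e * t', ⟨z' + 1, by
        rcases hz' with rfl | rfl
        · left; rw [zpow_add, zpow_one, mul_comm]
        · right; rw [zpow_add, zpow_one, mul_neg, mul_comm]⟩, ⟨(e : 𝓞 K) * y', ?_⟩⟩
      rw [Units.val_mul]
      have he : (e : 𝓞 K) = (a : 𝓞 K) + dl e a := by unfold dl; ring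
      have hxc : (u : 𝓞 K) - (a : 𝓞 K) * (w : 𝓞 K) = ((2 * x : ℤ) : 𝓞 K) := by
        have := congrArg (fun z : ℤ => (z : 𝓞 K)) hx'
        push_cast at this ⊢
        exact this
      push_cast at ht' hxc
      have key : (u : 𝓞 K) + (w : 𝓞 K) * dl e a =
          (e : 𝓞 K) * (-((a : 𝓞 K) * (u : 𝓞 K)) + ((a : 𝓞 K) ^ 2 + 1) * (w : 𝓞 K) +
            2 * (x : 𝓞 K) * dl e a) := by
        rw [← hxc, he]
        linear_combination (-((u : 𝓞 K) - (a : 𝓞 K) * (w : 𝓞 K))) * hsq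
      rw [key]
      linear_combination (e : 𝓞 K) * ht'
  refine ⟨t, hte, ?_⟩
  rw [hb]
  have e2 : (u : 𝓞 K) + (w : 𝓞 K) * dl e a + 2 ^ (j + 1) * y - (t : 𝓞 K) =
      ((u : 𝓞 K) + (w : 𝓞 K) * dl e a - (t : 𝓞 K)) + 2 ^ j * (2 * y) := by ring
  rw [e2]
  exact dvd_add ht (Dvd.intro _ rfl)

end Pool.Agent.STt
end
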